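import Pool.Agent.J4.H18.MS.Main
import Pool.Agent.R882.ZD

/-!
Images of fibrations with fibres of any dimension: the canonical forms and the base.
-/

set_option autoImplicit false
set_option linter.overlappingInstances false
set_option linter.unusedSectionVars false
set_option linter.unusedVariables false
set_option maxHeartbeats 4000000
set_option synthInstance.maxHeartbeats 400000

open Polynomial FF IntermediateField Module

namespace Pool.Agent.J4.H19.FD

open Pool.Agent.W603.LV Pool.Agent.W619.PQ Pool.Agent.N145.PC Pool.Agent.N145.PL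
open Pool.Agent.N145.SX
open Pool.Agent.W602.GT (Divisorial RegAt IsPluri DerReg DerLog LogAt KodGe LogSec Psef)
open Pool.Agent.Y184.NT (trForm trForm_pluri)
open Pool.Agent.R882.LT (TraceNe SecAt secAt_of trForm_sec)
open Pool.Agent.J4.H18.MS

open scoped Classical

/-- a regular canonical form -/
def Can (L : Type) [Field L] [Algebra ℂ L] (N : ℕ) (η : (Fin N → Derivation ℂ L L) → L) : Prop :=
  IsPluri 1 η ∧ ∀ P : Place ℂ L, Divisorial N P → RegAt P η

/-- the function field of the canonical image -/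
noncomputable def CanF (L : Type) [Field L] [Algebra ℂ L] (N : ℕ) : IntermediateField ℂ L :=
  IntermediateField.adjoin ℂ {z | ∃ η η' : (Fin N → Derivation ℂ L L) → L, Can L N η ∧
    Can L N η' ∧ ∃ D, η' D ≠ 0 ∧ z = η D / η' D}

section

variable {K : Type} [Field K] [Algebra ℂ K] {k N n : ℕ} {F : Fin k → IntermediateField ℂ K}
  {S : Fin k → Set K} {J : Type} {ω : J → (Fin N → Derivation ℂ K K) → K}
  {L : Type} [Field L] [Algebra ℂ L] [Algebra L K] [IsScalarTower ℂ L K] [FiniteDimensional L K]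

/-- the traces -/
theorem setup [Algebra.EssFiniteType ℂ K] (hK : Algebra.trdeg ℂ K = (N : ℕ))
    {B : IntermediateField ℂ K} (hBF : B = ⨆ i, F i) (hω : ∀ j, IsPluri 1 (ω j))
    (hreg : ∀ s : Fin k → K, (∀ i, s i ∈ F i ∧ s i ∈ S i) → ∀ j, ∀ P : Place ℂ K,
      Divisorial N P → RegAt P (fun D => (∏ i, s i) * ω j D))
    {y : Fin N → L} {E : Fin N → Derivation ℂ L L} (hy : IsTranscendenceBasis ℂ y)
    (hE : ∀ i j, E i (y j) = if i = j then 1 else 0) {E1 : Fin N → Derivation ℂ K K}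
    (hE1 : ∀ i f, E1 i (algebraMap L K f) = algebraMap L K (E i f)) :
    ∃ H : ∀ i, Set (ext F i),
      (∀ φ : ext F (Fin.last k), φ ∈ H (Fin.last k) ↔ ∃ j, (φ : K) = ω j E1) ∧
      (∀ f : ∀ i, ext F i, (∀ i, f i ∈ H i) → ∀ P : Place ℂ L, Divisorial N P →
        RegAt P (trForm y (Algebra.trace L K (1 * ∏ i, algebraMap (ext F i) K (f i))))) ∧
      ∀ r : Fin k → ℕ, (∀ i, Separates (F i) (S i) (r i)) → ∃ gg : Fin (k + 1) → ℕ,
        (∀ i : Fin k, gg i.castSucc = r i + 1) ∧
        ∀ (Ω : Type) [Field Ω] [Algebra ℂ Ω] [IsAlgClosed Ω] (i : Fin (k + 1)),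
          Sep (ev Ω (ext F) i) (H i) (gg i) := by
  have hL : Algebra.trdeg ℂ L = (N : ℕ) := Pool.Agent.Y184.NT.trdeg_below (K := K) hK
  have hessL : Algebra.EssFiniteType ℂ L := Pool.Agent.TH466.QG.ess_below (K := K)
  obtain ⟨SK, hSK⟩ : ∃ SK : Fin (k + 1) → Set K, SK = Fin.snoc (α := fun _ => Set K) S
    (Set.range fun j => ω j E1) := ⟨_, rfl⟩
  have hSl : SK (Fin.last k) = Set.range fun j => ω j E1 := by
    rw [hSK, Fin.snoc_last]
  have hSc : ∀ i : Fin k, SK i.castSucc = S i := fun i => by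
    rw [hSK, Fin.snoc_castSucc]
  refine ⟨fun i => {z : ext F i | (z : K) ∈ SK i}, fun φ => ?_, ?_, ?_⟩
  · change (φ : K) ∈ SK (Fin.last k) ↔ _
    rw [hSl]
    exact ⟨fun ⟨j, hj⟩ => ⟨j, hj.symm⟩, fun ⟨j, hj⟩ => ⟨j, hj.symm⟩⟩
  · intro f hf P hP
    obtain ⟨j, hj⟩ : ∃ j, (f (Fin.last k) : K) = ω j E1 := by
      have h1 : (f (Fin.last k) : K) ∈ SK (Fin.last k) := hf (Fin.last k)
      rw [hSl] at h1
      obtain ⟨j, hj⟩ := h1
      exact ⟨j, hj.symm⟩
    have hs : ∀ i : Fin k, (f i.castSucc : K) ∈ F i ∧ (f i.castSucc : K) ∈ S i := by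
      intro i
      have h1 : (f i.castSucc : K) ∈ SK i.castSucc := hf i.castSucc
      rw [hSc] at h1
      exact ⟨(ext_cast F i).le (f i.castSucc).2, h1⟩
    obtain ⟨W, hW⟩ : ∃ W : (Fin N → Derivation ℂ K K) → K,
      W = fun D => (∏ i : Fin k, (f i.castSucc : K)) * ω j D := ⟨_, rfl⟩
    have hWp : IsPluri 1 W := by
      intro A D
      rw [hW]
      change (∏ i : Fin k, (f i.castSucc : K)) * ω j (fun i => ∑ j, A i j • D j) = _
      rw [hω j A D]
      ring
    have hWr : ∀ P : Place ℂ K, Divisorial N P → SecAt (fun _ => False) P W := by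
      intro P hP
      rw [hW]
      exact secAt_of (hreg _ hs j P hP)
    have h3 : 1 * ∏ i, algebraMap (ext F i) K (f i) = W E1 := by
      rw [one_mul, Fin.prod_univ_castSucc, hW]
      congr 1
    rw [h3]
    exact (trForm_sec (BL := fun _ => False) hL hy hE hE1 W hWp (fun _ _ _ _ h => h) hWr P hP).2
      fun h => h
  · intro r hr
    obtain ⟨gg, hgg⟩ : ∃ gg : Fin (k + 1) → ℕ, gg = Fin.snoc (α := fun _ => ℕ)
      (fun i => r i + 1) 0 := ⟨_, rfl⟩
    have hggl : gg (Fin.last k) = 0 := by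
      rw [hgg, Fin.snoc_last]
    have hggc : ∀ i : Fin k, gg i.castSucc = r i + 1 := fun i => by
      rw [hgg, Fin.snoc_castSucc]
    refine ⟨gg, hggc, fun Ω _ _ _ i => ?_⟩
    induction i using Fin.lastCases with
    | last =>
      intro A hA
      rw [hggl] at hA
      exact absurd hA (Nat.not_lt_zero _)
    | cast i =>
      rw [hggc]
      exact sep_ev (hr i) (ext_cast F i) (hSc i) Ω

/-- algebraic over a subfield, hence over a larger one -/
theorem alg_mono {R R' : IntermediateField ℂ L} (h : R ≤ R') {z : K} (hz : IsAlgebraic R z) :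
    IsAlgebraic R' z := by
  obtain ⟨p, hp0, hp⟩ := hz
  refine ⟨p.map (IntermediateField.inclusion h).toRingHom,
    (Polynomial.map_ne_zero_iff (IntermediateField.inclusion h).injective).2 hp0, ?_⟩
  rw [Polynomial.aeval_def, Polynomial.eval₂_map]
  exact hp

/-- a canonical form which is regular on the generic fibre of the map to the variety with the function
field `B` -/
def FibF {A : Type} [Field A] [Algebra ℂ A] (B : Set A) (N : ℕ)
    (η : (Fin N → Derivation ℂ A A) → A) : Prop :=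
  IsPluri 1 η ∧ ∀ P : Place ℂ A, Divisorial N P → (∀ b ∈ B, b ≠ 0 → P.ord b = 0) → RegAt P η

theorem Can.fib {A : Type} [Field A] [Algebra ℂ A] {B : Set A}
    {η : (Fin N → Derivation ℂ A A) → A} (h : Can A N η) : FibF B N η :=
  ⟨h.1, fun P hP _ => h.2 P hP⟩

/-- the pullback of a form -/
theorem pull_fib {A G : Type} [Field A] [Algebra ℂ A] [Field G] [Algebra ℂ G] [Algebra A G]
    [IsScalarTower ℂ A G] [FiniteDimensional A G] [Algebra.EssFiniteType ℂ A]
    (hn : Algebra.trdeg ℂ A = (N : ℕ)) {z : Fin N → A} {E : Fin N → Derivation ℂ A A}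
    (hz : IsTranscendenceBasis ℂ z) (hE : ∀ i j, E i (z j) = if i = j then 1 else 0)
    {B : Set A} {B' : Set G} (hB : ∀ b ∈ B, algebraMap A G b ∈ B')
    {η : (Fin N → Derivation ℂ A A) → A} (hη : FibF B N η) :
    FibF B' N (Pool.Agent.R882.LT.pull (G := G) z E η) := by
  refine ⟨Pool.Agent.R882.LT.pull_pluri z E η, fun Q hQ hQB => ?_⟩
  obtain ⟨P, e, hPQ⟩ := Pool.Agent.Y172.exists_below (K := A) Q
  have hP : Divisorial N P := Pool.Agent.Y172.divisorial_down hPQ hQ
  have hPB : ∀ b ∈ B, b ≠ 0 → P.ord b = 0 := by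
    intro b hb hb0
    have h1 := hQB _ (hB b hb) (by simpa using hb0)
    rw [hPQ.2] at h1
    rcases mul_eq_zero.1 h1 with h2 | h2
    · exfalso
      have := hPQ.1
      omega
    · exact h2
  have h1 := Pool.Agent.R882.LT.pull_sec (BK := fun _ => False) (BG := fun _ => False) hn hz hE
    hη.1 hPQ hP (fun h => h) (Pool.Agent.R882.LT.secAt_of (hη.2 P hP hPB))
  exact h1.2 fun h => h

theorem pull_val {A G : Type} [Field A] [Algebra ℂ A] [Field G] [Algebra ℂ G] [Algebra A G]
    [IsScalarTower ℂ A G] {z : Fin N → A} {E : Fin N → Derivation ℂ A A}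
    {E' : Fin N → Derivation ℂ G G} (hE : ∀ i j, E' i (algebraMap A G (z j)) = if i = j then 1 else 0)
    (η : (Fin N → Derivation ℂ A A) → A) :
    Pool.Agent.R882.LT.pull (G := G) z E η E' = algebraMap A G (η E) := by
  unfold Pool.Agent.R882.LT.pull
  have h4 : (Matrix.of fun i j => E' i (algebraMap A G (z j))) = 1 := by
    ext i j
    rw [Matrix.of_apply, Matrix.one_apply, hE]
  rw [h4, Matrix.det_one, one_mul]

/-- **The forms and the base.** -/
theorem main [hess : Algebra.EssFiniteType ℂ K] (hK : Algebra.trdeg ℂ K = (N : ℕ))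
    {B : IntermediateField ℂ K} (hBF : B = ⨆ i, F i) (hB : Algebra.trdeg ℂ B = n)
    [Fintype J] (hω : ∀ j, IsPluri 1 (ω j))
    (hreg : ∀ s : Fin k → K, (∀ i, s i ∈ F i ∧ s i ∈ S i) → ∀ j, ∀ P : Place ℂ K,
      Divisorial N P → RegAt P (fun D => (∏ i, s i) * ω j D))
    (hall : ∀ η, FibF (B : Set K) N η → ∃ b : J → K, (∀ j, b j ∈ B) ∧
      ∀ D, η D = ∑ j, b j * ω j D)
    (L : Type) [Field L] [Algebra ℂ L] [Algebra L K] [IsScalarTower ℂ L K]
    [FiniteDimensional L K] {M : IntermediateField L K}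
    (hM : M = IntermediateField.adjoin L (B : Set K)) :
    ((∀ i, Separates (F i) (S i) (deg F L i)) →
      ((∀ η, Can L N η → ∀ D, η D = 0) ↔
        ∀ η, FibF {b : M | (b : K) ∈ B} N η → ∀ D, η D = 0)) ∧
    ((∀ i, Separates (F i) (S i) (2 * deg F L i)) →
      ∀ η0, FibF {b : M | (b : K) ∈ B} N η0 → ∀ D0 : Fin N → Derivation ℂ M M, η0 D0 ≠ 0 →
      (∀ z ∈ B, IsAlgebraic (CanF L N) z) ∧
      ∀ (j : ℕ) (η : Fin (j + 1) → (Fin N → Derivation ℂ M M) → M),
        (∀ i, FibF {b : M | (b : K) ∈ B} N (η i)) → ∀ D, η 0 D ≠ 0 → AlgebraicIndependent B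
        (fun i : Fin j => algebraMap M K (η i.succ D / η 0 D)) → CanGe L N (n + j)) := by
  have hL : Algebra.trdeg ℂ L = (N : ℕ) := Pool.Agent.Y184.NT.trdeg_below (K := K) hK
  have hessL : Algebra.EssFiniteType ℂ L := Pool.Agent.TH466.QG.ess_below (K := K)
  have hfML : FiniteDimensional L M := inferInstance
  have hfKM : FiniteDimensional M K := inferInstance
  have hTM : IsScalarTower ℂ M K := IsScalarTower.of_algebraMap_eq fun z => rfl
  have hMt : Algebra.trdeg ℂ M = (N : ℕ) := Pool.Agent.Y184.NT.trdeg_below (K := K) hK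
  have hessM : Algebra.EssFiniteType ℂ M := Pool.Agent.TH466.QG.ess_below (K := K)
  -- the frame of `W`
  obtain ⟨y, E, hy, hE⟩ := Pool.Agent.Y172.exists_crd (k := ℂ) (K := L) hL
  choose EM hEM using fun i =>
    Pool.Agent.Y172.exists_lift (k := ℂ) (K := L) (L := M) hL (E i)
  choose E1 hE1M using fun i =>
    Pool.Agent.Y172.exists_lift (k := ℂ) (K := M) (L := K) hMt (EM i)
  have hE1 : ∀ i f, E1 i (algebraMap L K f) = algebraMap L K (E i f) := by
    intro i f
    rw [IsScalarTower.algebraMap_apply L M K f, hE1M, hEM, ← IsScalarTower.algebraMap_apply]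
  have hyM : IsTranscendenceBasis ℂ (fun j => algebraMap L M (y j)) := hy.algebraMap_comp
  have hyK : IsTranscendenceBasis ℂ (fun j => algebraMap L K (y j)) := hy.algebraMap_comp
  have hEMd := Pool.Agent.Y172.lift_dual hE hEM
  have hE1d := Pool.Agent.Y172.lift_dual hE hE1
  have hE1Md := Pool.Agent.Y172.lift_dual hEMd hE1M
  have hθE : ∀ t, trForm y t E = t := by
    intro t
    have h1 : (Matrix.of fun i j => E i (y j) : Matrix (Fin N) (Fin N) L) = 1 := by
      ext i j
      rw [Matrix.of_apply, hE, Matrix.one_apply]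
    rw [trForm, h1, Matrix.det_one, one_mul]
  have hBE : B = ⨆ i : Fin k, ext F i.castSucc := by
    rw [hBF]
    exact iSup_congr fun i => (ext_cast F i).symm
  obtain ⟨H, hHl, hTreg, hSep⟩ := setup (L := L) hK hBF hω hreg hy hE hE1
  have hle : B ≤ M.restrictScalars ℂ := by
    rw [hM]
    exact IntermediateField.subset_adjoin L (B : Set K)
  -- forms of `W'` as combinations of the traces
  obtain ⟨tr, htr⟩ : ∃ tr : J → K, ∀ j, tr j = ((Algebra.trace M K (ω j E1) : M) : K) :=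
    ⟨_, fun _ => rfl⟩
  have hcombM : ∀ η, FibF {b : M | (b : K) ∈ B} N η → ∃ b : J → K, (∀ j, b j ∈ B) ∧
      ((η EM : M) : K) = ∑ j, b j * tr j := by
    intro η hη
    have h1 : FibF (B : Set K) N
        (Pool.Agent.R882.LT.pull (G := K) (fun j => algebraMap L M (y j)) EM η) :=
      pull_fib (B' := (B : Set K)) hMt hyM hEMd (fun b hb => hb) hη
    obtain ⟨b, hb, hηb⟩ := hall _ h1
    have h2 := hηb E1
    rw [pull_val hE1Md] at h2
    obtain ⟨d, hd⟩ : ∃ d, d = finrank M K := ⟨_, rfl⟩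
    have hd0 : (d : K) ≠ 0 := by
      have hch : CharZero K := charZero_of_injective_algebraMap (algebraMap ℂ K).injective
      rw [hd]
      exact Nat.cast_ne_zero.2 finrank_pos.ne'
    have h5 : (d : K) * ((η EM : M) : K) = ∑ j, b j * tr j := by
      have h6 := congrArg (fun z => ((Algebra.trace M K z : M) : K)) h2
      have h7 : ((Algebra.trace M K (algebraMap M K (η EM)) : M) : K) =
          (d : K) * ((η EM : M) : K) := by
        rw [Algebra.trace_algebraMap, ← hd, nsmul_eq_mul]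
        push_cast
        rfl
      rw [h7, map_sum] at h6
      rw [h6]
      push_cast
      refine Finset.sum_congr rfl fun j _ => ?_
      rw [htr]
      have h9 : b j * ω j E1 = (⟨b j, hle (hb j)⟩ : M) • ω j E1 := rfl
      rw [h9, map_smul]
      rfl
    refine ⟨fun j => (d : K)⁻¹ * b j, fun j => B.mul_mem (B.inv_mem (_root_.natCast_mem B d)) (hb j),
      ?_⟩
    simp only [mul_assoc]
    rw [← Finset.mul_sum, ← h5, ← mul_assoc, inv_mul_cancel₀ hd0, one_mul]
  -- a nonzero trace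
  have hηE : ∀ {η}, Can L N η → ∀ D, η D = (Matrix.of fun i j => D i (y j)).det * η E := by
    intro η hη D
    rw [Pool.Agent.Y172.pluri_coord hy hE hη.1 D, pow_one]
  have hηM : ∀ {η}, FibF {b : M | (b : K) ∈ B} N η → ∀ D,
      η D = (Matrix.of fun i j => D i (algebraMap L M (y j))).det * η EM := by
    intro η hη D
    rw [Pool.Agent.Y172.pluri_coord hyM hEMd hη.1 D, pow_one]
  have htr1 : ∀ (b : J → K) (z : K), z ≠ 0 → z = ∑ j, b j * tr j →
      ∃ j0, Algebra.trace M K (ω j0 E1) ≠ 0 := by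
    intro b z hz h1
    by_contra hcon
    push Not at hcon
    have h2 : ∑ j, b j * tr j = 0 := Finset.sum_eq_zero fun j _ => by
      rw [htr, hcon j]
      change b j * 0 = 0
      rw [mul_zero]
    rw [h2] at h1
    exact hz h1
  have hφ0 : ∀ j, ∃ φ0 : ext F (Fin.last k), φ0 ∈ H (Fin.last k) ∧ (φ0 : K) = ω j E1 := by
    intro j
    have h1 : ω j E1 ∈ ext F (Fin.last k) := by
      rw [ext_last]
      trivial
    exact ⟨⟨ω j E1, h1⟩, (hHl _).2 ⟨j, rfl⟩, rfl⟩
  refine ⟨fun hs => ⟨fun hg η hη D => ?_, fun hg η hη D => ?_⟩, fun hs η0 hη0 D0 hD0 => ?_⟩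
  · -- forms of the fibres of `W'`
    by_contra hne
    have h1 : η EM ≠ 0 := by
      intro h0
      apply hne
      rw [Pool.Agent.Y172.pluri_coord hyM hEMd hη.1 D, h0, mul_zero]
    obtain ⟨b, hb, h2⟩ := hcombM η hη
    obtain ⟨j, hj⟩ := htr1 b _ (fun h0 => h1 (Subtype.ext h0)) h2
    obtain ⟨φ0, hφ0, hφj⟩ := hφ0 j
    obtain ⟨gg, hgg, hSepΩ⟩ := hSep _ hs
    rw [hM] at hj
    obtain ⟨f, hf, hne'⟩ := exists_trace_ne (L := L) (h := 1) hBE hSepΩ (fun i => by
      rw [deg_ext, hgg]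
      exact Nat.lt_succ_self _) hφ0 (by rw [one_mul, hφj]; exact hj)
    have h2 := hg (trForm y _) ⟨trForm_pluri y _, fun P hP => hTreg f hf P hP⟩ E
    rw [hθE] at h2
    exact hne' h2
  · -- forms of `W`
    by_contra hne
    have h1 : η E ≠ 0 := by
      intro h0
      apply hne
      rw [hηE hη, h0, mul_zero]
    have h2 : FibF {b : M | (b : K) ∈ B} N (Pool.Agent.R882.LT.pull (G := M) y E η) :=
      pull_fib (B := ∅) hL hy hE (fun b hb => hb.elim) hη.fib
    have h3 := hg _ h2 EM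
    rw [pull_val hEMd] at h3
    exact h1 ((map_eq_zero (algebraMap L M)).1 h3)
  have hη0E : η0 EM ≠ 0 := by
    intro h0
    apply hD0
    rw [hηM hη0, h0, mul_zero]
  obtain ⟨j0, hj0⟩ : ∃ j0, Algebra.trace M K (ω j0 E1) ≠ 0 := by
    obtain ⟨b, hb, h1⟩ := hcombM η0 hη0
    exact htr1 b _ (fun h0 => hη0E (Subtype.ext h0)) h1
  obtain ⟨gg, hgg, hSepΩ⟩ := hSep _ hs
  have hdd : ∀ i : Fin k, 2 * finrank (MF (ext F) L (Js (k + 1) i))
      (IntermediateField.adjoin (MF (ext F) L (Js (k + 1) i)) (ext F i.castSucc : Set K)) <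
      gg i.castSucc := fun i => by
    rw [deg_ext, hgg]
    exact Nat.lt_succ_self _
  obtain ⟨φ0, hφ0H, hφj⟩ := hφ0 j0
  obtain ⟨T, hT⟩ : ∃ T : {f : ∀ i, ext F i // ∀ i, f i ∈ H i} → L, ∀ f, T f =
    Algebra.trace L K (1 * ∏ i, algebraMap (ext F i) K (f.1 i)) := ⟨_, fun _ => rfl⟩
  obtain ⟨hT0, hEalg, hratj⟩ : (∃ f, T f ≠ 0) ∧ (∀ z : B, IsAlgebraic (Rt T) (z : K)) ∧
      ∀ j, IsAlgebraic (Rt T) (tr j / tr j0) := by
    subst hM
    obtain ⟨hT0, hEalg, hrat⟩ := alg_ratios (L := L) (h := 1) hBE hSepΩ hdd hφ0H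
      (by rw [one_mul, hφj]; exact hj0) hT
    refine ⟨hT0, hEalg, fun j => ?_⟩
    obtain ⟨φ, hφH, hφ⟩ := hφ0 j
    have h1 := hrat φ hφH
    rw [one_mul, one_mul, hφj, hφ] at h1
    rw [htr, htr]
    exact h1
  have hTreg' : ∀ f, ∀ P : Place ℂ L, Divisorial N P → RegAt P (trForm y (T f)) := by
    intro f P hP
    rw [hT]
    exact hTreg f.1 f.2 P hP
  have htr0 : tr j0 ≠ 0 := by
    rw [htr]
    intro h0
    exact hj0 (Subtype.ext h0)
  -- forms over the trace
  have hform : ∀ η, FibF {b : M | (b : K) ∈ B} N η →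
      IsAlgebraic (Rt T) (((η EM : M) : K) / tr j0) := by
    intro η hη
    obtain ⟨b, hb, h1⟩ := hcombM η hη
    rw [h1, Finset.sum_div]
    rw [← mem_algebraicClosure_iff]
    refine sum_mem fun j _ => ?_
    rw [mul_div_assoc]
    refine mul_mem ?_ ?_
    · rw [mem_algebraicClosure_iff]
      exact hEalg ⟨b j, hb j⟩
    · rw [mem_algebraicClosure_iff]
      exact hratj j
  have hquo : ∀ η η', FibF {b : M | (b : K) ∈ B} N η → FibF {b : M | (b : K) ∈ B} N η' →
      ∀ D, η' D ≠ 0 → IsAlgebraic (Rt T) (algebraMap M K (η D / η' D)) := by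
    intro η η' hη hη' D hD
    have h1 := hηM hη D
    have h2 := hηM hη' D
    have h3 : η D / η' D = η EM / η' EM := by
      rw [h2] at hD
      rw [h1, h2, mul_div_mul_left _ _ (left_ne_zero_of_mul hD)]
    have h4 : algebraMap M K (η D / η' D) = (((η EM : M) : K) / tr j0) /
        (((η' EM : M) : K) / tr j0) := by
      rw [h3, map_div₀, div_div_div_cancel_right₀ htr0]
      rfl
    rw [h4, ← mem_algebraicClosure_iff]
    exact div_mem (mem_algebraicClosure_iff.2 (hform η hη))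
      (mem_algebraicClosure_iff.2 (hform η' hη'))
  refine ⟨fun z hz => ?_, fun j η hη D hD hind => ?_⟩
  · refine alg_mono ?_ (hEalg ⟨z, hz⟩)
    unfold Rt
    rw [IntermediateField.adjoin_le_iff]
    rintro _ ⟨⟨f, g⟩, rfl⟩
    change T f / T g ∈ CanF L N
    by_cases hg : T g = 0
    · rw [hg, div_zero]
      exact zero_mem _
    · refine IntermediateField.subset_adjoin _ _ ⟨trForm y (T f), trForm y (T g),
        ⟨trForm_pluri y _, fun P hP => hTreg' f P hP⟩, ⟨trForm_pluri y _,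
        fun P hP => hTreg' g P hP⟩, E, ?_, ?_⟩
      · rw [hθE]
        exact hg
      · rw [hθE, hθE]
  · obtain ⟨z, -, hz, -⟩ := Pool.Agent.Y944.NT.exists_crd (k := ℂ) (K := B) hB
    obtain ⟨r, hr⟩ : ∃ r : Fin j → K, r = fun i => algebraMap M K (η i.succ D / η 0 D) :=
      ⟨_, rfl⟩
    rw [← hr] at hind
    have h2 := hz.1.sumElim_comp hind
    let e : Fin (n + j) ≃ Fin j ⊕ Fin n := finSumFinEquiv.symm.trans (Equiv.sumComm _ _)
    obtain ⟨x, hx⟩ : ∃ x : Fin (n + j) → K, x = Sum.elim r (fun l => (z l : K)) ∘ e :=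
      ⟨_, rfl⟩
    have hxi : AlgebraicIndependent ℂ x := by
      rw [hx]
      exact h2.comp e e.injective
    refine canGe_of_alg hL hE T hT0 hTreg' (trdeg_adj hxi) fun l => ?_
    rw [hx, Function.comp_apply]
    rcases e l with i | i
    · rw [Sum.elim_inl, hr]
      exact hquo _ _ (hη _) (hη _) D hD
    · rw [Sum.elim_inr]
      exact hEalg (z i)

end

end Pool.Agent.J4.H19.FD
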