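import Pool.Agent.J4.H19.FD.Main

/-!
Independent functions over a subfield, and the dimension of the canonical image.
-/

set_option autoImplicit false
set_option linter.overlappingInstances false
set_option linter.unusedSectionVars false
set_option maxHeartbeats 4000000
set_option synthInstance.maxHeartbeats 400000

open Polynomial FF IntermediateField Module

namespace Pool.Agent.J4.H19.FD

open Pool.Agent.W603.LV Pool.Agent.W619.PQ Pool.Agent.N145.PC Pool.Agent.N145.PL
open Pool.Agent.N145.SX
open Pool.Agent.W602.GT (Divisorial RegAt IsPluri DerReg DerLog LogAt KodGe LogSec Psef)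
open Pool.Agent.J4.H18.MS
open Pool.Agent.J4.H19.FC (GenusZero)

open scoped IntermediateField.algebraAdjoinAdjoin in
theorem indep_aux {B A : Type} [Field B] [Field A] [Algebra ℂ B] [Algebra ℂ A] [Algebra B A]
    [IsScalarTower ℂ B A] {n j : ℕ} (hB : Algebra.trdeg ℂ B = n) {r : Fin (n + j) → A}
    (hr : AlgebraicIndependent ℂ r) (htop : IntermediateField.adjoin B (Set.range r) = ⊤) :
    ∃ s : Fin j → Fin (n + j), AlgebraicIndependent B (fun l => r (s l)) := by
  have h2 : Algebra.IsAlgebraic (IntermediateField.adjoin B (Set.range r)) A := by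
    constructor
    intro z
    have hz : z ∈ IntermediateField.adjoin B (Set.range r) := by
      rw [htop]
      trivial
    exact isAlgebraic_algebraMap (A := A) (⟨z, hz⟩ : IntermediateField.adjoin B (Set.range r))
  have h3 : Algebra.IsAlgebraic (Algebra.adjoin B (Set.range r)) A :=
    (IsFractionRing.comap_isAlgebraic_iff (A := Algebra.adjoin B (Set.range r))
      (K := IntermediateField.adjoin B (Set.range r)) (C := A)).2 h2
  obtain ⟨t, hts, ht⟩ := exists_isTranscendenceBasis_subset (R := B) (Set.range r)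
  have h4 : Cardinal.mk t = Algebra.trdeg B A := ht.cardinalMk_eq_trdeg
  have h5 : Algebra.trdeg ℂ B + Algebra.trdeg B A = Algebra.trdeg ℂ A :=
    trdeg_add_eq ℂ B
  have h7 := hr.lift_cardinalMk_le_trdeg
  simp only [Cardinal.mk_fin, Cardinal.lift_natCast] at h7
  have hfin : t.Finite := (Set.finite_range r).subset hts
  have hft : Fintype t := hfin.fintype
  rw [Cardinal.lift_id, ← h5, hB, ← h4, Cardinal.mk_fintype] at h7
  have h8 : n + j ≤ n + Fintype.card t := by exact_mod_cast h7
  obtain ⟨e⟩ : Nonempty (Fin j ↪ t) := Function.Embedding.nonempty_of_card_le (by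
    rw [Fintype.card_fin]
    omega)
  have h9 : AlgebraicIndependent B (fun l : Fin j => ((e l : t) : A)) := ht.1.comp e e.injective
  choose s hs using fun l : Fin j => hts (e l).2
  refine ⟨s, ?_⟩
  have h11 : (fun l => r (s l)) = fun l : Fin j => ((e l : t) : A) := funext hs
  rw [h11]
  exact h9

/-- functions which are algebraically independent over `ℂ` contain functions which are algebraically
independent over the subfield `B` -/
theorem indep_sub {K : Type} [Field K] [Algebra ℂ K] {B : IntermediateField ℂ K} {n j : ℕ}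
    (hB : Algebra.trdeg ℂ B = n) {r : Fin (n + j) → K} (hr : AlgebraicIndependent ℂ r) :
    ∃ s : Fin j → Fin (n + j), AlgebraicIndependent B (fun l => r (s l)) := by
  obtain ⟨A, hA⟩ : ∃ A : IntermediateField B K, A = IntermediateField.adjoin B (Set.range r) :=
    ⟨_, rfl⟩
  have hmem : ∀ i, r i ∈ A := fun i => by
    rw [hA]
    exact IntermediateField.subset_adjoin _ _ ⟨i, rfl⟩
  let rA : Fin (n + j) → A := fun i => ⟨r i, hmem i⟩
  have hT : IsScalarTower ℂ B A := inferInstance
  have htop : IntermediateField.adjoin B (Set.range rA) = ⊤ := by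
    apply IntermediateField.map_injective A.val
    rw [IntermediateField.adjoin_map, ← AlgHom.fieldRange_eq_map, IntermediateField.fieldRange_val,
      ← Set.range_comp]
    exact hA.symm
  have h6 : AlgebraicIndependent ℂ rA := AlgebraicIndependent.of_comp (A.val.restrictScalars ℂ) hr
  obtain ⟨s, hs⟩ := indep_aux hB h6 htop
  exact ⟨s, hs.map' (f := A.val) A.val.injective⟩

/-- the dimension of the canonical image of the generic fibre of `W' → V'` is at least `j` -/
def FibGe {K : Type} [Field K] [Algebra ℂ K] (B : IntermediateField ℂ K) {L : Type} [Field L]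
    [Algebra ℂ L] [Algebra L K] [IsScalarTower ℂ L K] (M : IntermediateField L K)
    (N j : ℕ) : Prop :=
  ∃ η : Fin (j + 1) → (Fin N → Derivation ℂ M M) → M,
    (∀ i, FibF {b : M | (b : K) ∈ B} N (η i)) ∧ ∃ D, η 0 D ≠ 0 ∧
      AlgebraicIndependent B (fun i : Fin j => algebraMap M K (η i.succ D / η 0 D))

/-- **The canonical image and the base.** -/
theorem main2 {K : Type} [Field K] [Algebra ℂ K] {k N n : ℕ} {F : Fin k → IntermediateField ℂ K}
    {S : Fin k → Set K} {J : Type} {ω : J → (Fin N → Derivation ℂ K K) → K}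
    [hess : Algebra.EssFiniteType ℂ K] (hK : Algebra.trdeg ℂ K = (N : ℕ))
    {B : IntermediateField ℂ K} (hBF : B = ⨆ i, F i) (hB : Algebra.trdeg ℂ B = n)
    [Finite J] (hω : ∀ j, IsPluri 1 (ω j))
    (hreg : ∀ s : Fin k → K, (∀ i, s i ∈ F i ∧ s i ∈ S i) → ∀ j, ∀ P : Place ℂ K,
      Divisorial N P → RegAt P (fun D => (∏ i, s i) * ω j D))
    (hall : ∀ η, FibF (B : Set K) N η → η ∈ Submodule.span B (Set.range ω))
    (L : Type) [Field L] [Algebra ℂ L] [Algebra L K] [IsScalarTower ℂ L K]
    [FiniteDimensional L K] {M : IntermediateField L K}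
    (hM : M = IntermediateField.adjoin L (B : Set K)) :
    ((∀ i, Separates (F i) (S i) (deg F L i)) → (GenusZero L N ↔
      ∀ η, FibF {b : M | (b : K) ∈ B} N η → ∀ D, η D = 0)) ∧
    ((∀ i, Separates (F i) (S i) (2 * deg F L i)) →
      (¬ GenusZero L N → ∀ z ∈ B, IsAlgebraic (CanF L N) z) ∧
      ∀ j, CanGe L N (n + j) ↔ FibGe B M N j) := by
  have hJ : Fintype J := Fintype.ofFinite J
  have hall' : ∀ η, FibF (B : Set K) N η → ∃ b : J → K, (∀ j, b j ∈ B) ∧
      ∀ D, η D = ∑ j, b j * ω j D := by
    intro η hη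
    obtain ⟨c, hc⟩ := (Submodule.mem_span_range_iff_exists_fun B).1 (hall η hη)
    refine ⟨fun j => (c j : K), fun j => (c j).2, fun D => ?_⟩
    rw [← hc, Finset.sum_apply]
    rfl
  obtain ⟨hm1, hm2⟩ := main hK hBF hB hω hreg hall' L hM
  have hgz : GenusZero L N ↔ ∀ η, Can L N η → ∀ D, η D = 0 :=
    ⟨fun h η hη D => h η hη.1 hη.2 D, fun h η hη hr D => h η ⟨hη, hr⟩ D⟩
  refine ⟨fun hs => hgz.trans (hm1 hs), fun hs => ⟨fun hg => ?_, fun j => ⟨?_, ?_⟩⟩⟩
  · have h1 : ∃ η0, FibF {b : M | (b : K) ∈ B} N η0 ∧ ∃ D0, η0 D0 ≠ 0 := by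
      by_contra hcon
      push Not at hcon
      exact hg (hgz.2 ((hm1 fun i => (hs i).mono (by omega)).2 hcon))
    obtain ⟨η0, hη0, D0, hD0⟩ := h1
    exact (hm2 hs η0 hη0 D0 hD0).1
  · rintro ⟨η, hη, D, hD, hind⟩
    have hL : Algebra.trdeg ℂ L = (N : ℕ) := Pool.Agent.Y184.NT.trdeg_below (K := K) hK
    have hessL : Algebra.EssFiniteType ℂ L := Pool.Agent.TH466.QG.ess_below (K := K)
    have hfML : FiniteDimensional L M := inferInstance
    have hTM : IsScalarTower ℂ M K := IsScalarTower.of_algebraMap_eq fun z => rfl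
    obtain ⟨y, E, hy, hE⟩ := Pool.Agent.Y172.exists_crd (k := ℂ) (K := L) hL
    choose EM hEM using fun i =>
      Pool.Agent.Y172.exists_lift (k := ℂ) (K := L) (L := M) hL (E i)
    have hEMd := Pool.Agent.Y172.lift_dual hE hEM
    have hηE : ∀ i, η i D = (Matrix.of fun i j => D i (y j)).det * η i E := by
      intro i
      rw [Pool.Agent.Y172.pluri_coord hy hE (hη i).1 D, pow_one]
    have hD' := hD
    rw [hηE] at hD'
    have hr : ∀ i, η i D / η 0 D = η i E / η 0 E := by
      intro i
      rw [hηE i, hηE 0, mul_div_mul_left _ _ (left_ne_zero_of_mul hD')]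
    have h1 : AlgebraicIndependent ℂ
        (fun i : Fin (n + j) => algebraMap L K (η i.succ D / η 0 D)) :=
      hind.map' (f := IsScalarTower.toAlgHom ℂ L K) (algebraMap L K).injective
    obtain ⟨s, hs'⟩ := indep_sub hB h1
    obtain ⟨c, hc0, hcs⟩ : ∃ c : Fin (j + 1) → Fin (n + j + 1), c 0 = 0 ∧
        ∀ l, c l.succ = (s l).succ :=
      ⟨Fin.cons 0 fun l => (s l).succ, rfl, fun l => rfl⟩
    refine ⟨fun i => Pool.Agent.R882.LT.pull (G := M) y E (η (c i)), fun i =>
      pull_fib (B := ∅) hL hy hE (fun b hb => hb.elim) (Can.fib (hη _)), EM, ?_, ?_⟩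
    · change Pool.Agent.R882.LT.pull (G := M) y E (η (c 0)) EM ≠ 0
      rw [pull_val hEMd, hc0]
      simpa using right_ne_zero_of_mul hD'
    · have h2 : (fun i : Fin j => algebraMap M K
          (Pool.Agent.R882.LT.pull (G := M) y E (η (c i.succ)) EM /
            Pool.Agent.R882.LT.pull (G := M) y E (η (c 0)) EM)) =
          fun l => algebraMap L K (η (s l).succ D / η 0 D) := by
        funext l
        rw [pull_val hEMd, pull_val hEMd, hc0, hcs, hr, ← map_div₀,
          ← IsScalarTower.algebraMap_apply]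
      rw [h2]
      exact hs'
  · rintro ⟨η, hη, D, hD, hind⟩
    exact (hm2 hs _ (hη 0) D hD).2 j η hη D hD hind

end Pool.Agent.J4.H19.FD
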